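import Pool.Agent.H48.TC.Stm
import Pool.Agent.H14.P5.DepT

/-!
# TC: deeper contexts

`dep_stmt : DepStmt`.
-/

set_option autoImplicit false

namespace Pool.TC

open Finset Real MvPolynomial
open Pool.Agent.H49.Ent Pool.Agent.H32.Dense Pool.STK Pool.STAT Pool.MIC.Frm Pool.MIC7 Pool.FRM
open Pool.GSD
open Pool.BFL (Pb)
open Pool.P4 (t0 rt pp PthC FraC bb ze zt z0 GoodS FrP t0_abs)
open Pool.P5 (DepT depT_stmt)

/-- The coefficients of an interpolation polynomial. -/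
theorem cf_le (d : ℕ) : ∃ K : ℝ, 1 ≤ K ∧ ∀ (f g : ℕ → ℝ) (x : ℝ), 0 ≤ x →
    (∀ m ≤ d, |f m - g m| ≤ x) → ∀ s ≤ d,
    |(Lagrange.interpolate (Finset.range (d + 1)) (fun m : ℕ => (m : ℝ) / d) f).coeff s -
      (Lagrange.interpolate (Finset.range (d + 1)) (fun m : ℕ => (m : ℝ) / d) g).coeff s| ≤
        K * x := by
  obtain ⟨b, hb⟩ : ∃ b : ℕ → ℕ → ℝ, b = fun m s =>
      (Lagrange.basis (Finset.range (d + 1)) (fun m : ℕ => (m : ℝ) / d) m).coeff s := ⟨_, rfl⟩
  refine ⟨1 + ∑ m ∈ range (d + 1), ∑ s ∈ range (d + 1), |b m s|,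
    by have : 0 ≤ ∑ m ∈ range (d + 1), ∑ s ∈ range (d + 1), |b m s| :=
         Finset.sum_nonneg fun _ _ => Finset.sum_nonneg fun _ _ => abs_nonneg _
       linarith, ?_⟩
  intro f g x hx hfg s hs
  have e1 : ∀ f : ℕ → ℝ, (Lagrange.interpolate (Finset.range (d + 1))
      (fun m : ℕ => (m : ℝ) / d) f).coeff s = ∑ m ∈ range (d + 1), f m * b m s := fun f => by
    rw [Lagrange.interpolate_apply, Polynomial.finsetSum_coeff]
    refine Finset.sum_congr rfl fun m _ => ?_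
    rw [Polynomial.coeff_C_mul, hb]
  rw [e1, e1, ← Finset.sum_sub_distrib]
  refine (Finset.abs_sum_le_sum_abs _ _).trans ?_
  have h1 : ∀ m ∈ range (d + 1), |f m * b m s - g m * b m s| ≤
      (∑ s ∈ range (d + 1), |b m s|) * x := fun m hm => by
    rw [← sub_mul, abs_mul, mul_comm]
    refine mul_le_mul ?_ (hfg m (Nat.lt_succ_iff.1 (Finset.mem_range.1 hm))) (abs_nonneg _)
      (Finset.sum_nonneg fun _ _ => abs_nonneg _)
    exact Finset.single_le_sum (f := fun s => |b m s|) (fun _ _ => abs_nonneg _)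
      (Finset.mem_range.2 (Nat.lt_succ_of_le hs))
  refine (Finset.sum_le_sum h1).trans ?_
  rw [← Finset.sum_mul]
  nlinarith

/-- The times of the window. -/
theorem tx_abs (D : NDat2) {J w v : ℕ} (hw : w ≤ J) (hv : v ≤ w) {ω : D.Ω}
    (hX : D.X ω 0 = (D.T ω : ℝ) / 2 ^ J) {x : ℝ} (x0 : 0 ≤ x) (x1 : x ≤ 1) :
    |t0 D J w ω + x * (1 / 2 ^ w) - D.X ω 0| ≤ 1 / 2 ^ v := by
  obtain ⟨h1, h2⟩ := t0_abs D hw hv hX
  rw [abs_le] at h1 h2 ⊢
  have h3 : (0 : ℝ) < 1 / 2 ^ w := by positivity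
  constructor <;> nlinarith [h1.1, h1.2, h2.1, h2.2, mul_le_mul_of_nonneg_right x1 h3.le,
    mul_nonneg x0 h3.le]

/-- **Deeper contexts.** -/
theorem dep_stmt : DepStmt := by
  intro n d K K' th lam gam C₁ C hn hC₁ hC hlam _
  obtain ⟨C', hC', H⟩ := depT_stmt n K K' lam gam C₁ C hn hC₁ hC hlam
  obtain ⟨K₁, hK₁, hcf⟩ := cf_le d
  refine ⟨C' + K₁, by linarith, fun y r r2 r' r'' a M => ⟨1, ?_⟩⟩
  intro J a₀ w₀ z i j D q κ hz hpl hO P E hE
  have hjM : j < M := by have := hpl.j2; omega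
  have hiM : i < M := by have := hpl.i2; omega
  have hzr : (1 : ℝ) ≤ z := by exact_mod_cast hz
  have hwJ : ∀ w, w ≤ w₀ + (j + 1) * z → w ≤ J := by
    intro w hw
    have h1 := hO.thin
    have h2 := hO.top
    have h3 : (j + 1) * z ≤ (M + 1) * z := Nat.mul_le_mul_right _ (by omega)
    omega
  obtain ⟨h1, h2, h3⟩ := H M J a₀ w₀ z i j r D q κ hz hiM hjM hO P E hE
  have hCK : K₁ * exp (C' * z) ≤ exp ((C' + K₁) * z) := by
    rw [add_mul, Real.exp_add, mul_comm]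
    have h4 : K₁ ≤ exp (K₁ * z) := by
      have := Real.add_one_le_exp (K₁ * (z : ℝ))
      nlinarith
    exact mul_le_mul_of_nonneg_left h4 (by positivity)
  have hC2 : exp (C' * z) ≤ exp ((C' + K₁) * z) :=
    Real.exp_le_exp.2 (mul_le_mul_of_nonneg_right (by linarith) (by linarith))
  refine ⟨?_, ?_, ?_⟩
  · intro i' hi hi' ω ω' hω hω' Eω Eω' hb hc w hw1 hw2 hwT l hl1 hln
    have hw := hwJ w hw2
    have htt : t0 D J w ω' = t0 D J w ω := by
      unfold P4.t0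
      rw [hwT]
    have p0 : (0 : ℝ) < 2 ^ ((i' - i) * z) := by positivity
    have pt : ∀ x : ℝ, 0 ≤ x → x ≤ 1 →
        |zx D J w i j r P x ω l - zx D J w i j r P x ω' l| ≤
          exp (C' * z) / 2 ^ ((i' - i) * z) := by
      intro x x0 x1
      have a1 := tx_abs D (J := J) (w := w) (v := w₀ + j * z) hw hw1 (hO.X_zero ω) x0 x1
      have a2 := tx_abs D (J := J) (w := w) (v := w₀ + j * z) hw hw1 (hO.X_zero ω') x0 x1
      rw [htt] at a2
      have := h1 i' hi hi' ω ω' hω hω' Eω Eω' hb hc _ a1 a2 l hl1 hln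
      unfold zx
      rw [htt]
      exact this
    have e3 : 0 ≤ exp (C' * z) / 2 ^ ((i' - i) * z) := by positivity
    refine ⟨?_, fun s _ hs => ?_⟩
    · have h4 := pt 0 le_rfl zero_le_one
      unfold zx at h4
      rw [zero_mul, add_zero, add_zero] at h4
      unfold z0
      exact h4.trans (div_le_div_of_nonneg_right hC2 p0.le)
    · have h4 := hcf (fun m => zx D J w i j r P ((m : ℝ) / d) ω l)
        (fun m => zx D J w i j r P ((m : ℝ) / d) ω' l) _ e3 (fun m hm => pt _ (by positivity) (by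
          rcases Nat.eq_zero_or_pos d with h0 | h0
          · rw [h0, Nat.cast_zero, div_zero]
            exact zero_le_one
          · rw [div_le_one (by exact_mod_cast h0)]
            exact_mod_cast hm)) s hs
      refine h4.trans ?_
      rw [← mul_div_assoc]
      exact div_le_div_of_nonneg_right hCK p0.le
  · intro i' hi hi' ω ω' hω hω' Eω Eω' hb hc hT l hl1 hln δ hδ hd
    exact (h2 i' hi hi' ω ω' hω hω' Eω Eω' hb hc hT l hl1 hln δ hδ hd).trans
      (mul_le_mul_of_nonneg_right hC2 hδ)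
  · intro i' hi hi' ω ω' hω hω' Eω Eω' hb hc hT l hl1 hln δ hδ hd
    exact (h3 i' hi hi' ω ω' hω hω' Eω Eω' hb hc hT l hl1 hln δ hδ hd).trans
      (mul_le_mul_of_nonneg_right hC2 hδ)

end Pool.TC
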