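import Pool.Agent.H48.TC.Tm
import Pool.Agent.H48.TC.Bas
import Pool.Agent.H16.P4.H0
import Pool.Agent.H14.TT.Ir

/-!
# TC, (H0): the abstract time is almost independent of the line

`h0_gen`: of everything which is a function of the line and of the window and few given the left
side. `ctx_few`: the closed contexts `(i', j)` with `i' ≤ i + r'' + r` are few given the left side.
`h0_ctx`: the abstract time is almost independent of the data of the line together with such a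
context. `h0_stmt : H0Stmt`.
-/

set_option autoImplicit false

namespace Pool.TC

open Finset Real
open Pool.Agent.H49.Ent Pool.Agent.H32.Dense Pool.STK Pool.MIC Pool.STAT
open Pool.BFL (Pb)
open Pool.MIC.Frm Pool.MIC7 Pool.FRM Pool.GSD
open Pool.P4 (t0 rt pp PthC FraC bb ze zt z0 cl1 dg dgp Ry cb LLC tq GoodS FrP err c_up)
open Pool.P4E (lft_one few_idx use_gen quo_sub fb fb_le l7 l5 fb1_le Pb_le_one dg_sub
  dg_abs dgp_sub dgp_abs log_le lft_cls)
open Pool.TT14 (ir_time bb_det)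

section hyp

variable {D : NDat2} {n d K K' J a₀ w₀ z M w i j r r2 r' r'' y a X : ℕ} {th : ℝ}
  {lam gam : ℕ → ℝ} {κ C₁ C : ℝ} {q : D.Ω → ℝ} {E : D.Ω → Prop} {P : D.Γ × D.Γ → ℕ → PN}
  {S : Slo D} {c k0 k1 : ℕ} {ys : Fin (k0 + k1) → ℕ} {gs : Fin c → ℕ}
  (H : Hyp D n d K K' J a₀ w₀ z M w i j r r2 r' r'' y a X th lam gam κ C₁ C q E P S ys gs)

include H

/-- **The information between the two sides**, in the picture context. -/
theorem Hyp.mi_cb {r₁ : ℕ} (h1 : r₁ ≤ i) (h2 : i + r₁ < M) :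
    CH q (D.rgt i j r₁ r 1) (fun ω => (D.T ω, cb D J w i j r ω)) ≤
      CH q (D.rgt i j r₁ r 1) (fun ω => (D.lft i j r₁ r 1 ω, (D.T ω, cb D J w i j r ω))) +
        κ * z := by
  have hq := H.ok.isLaw.nonneg
  have h3 := H.j1
  have h4 := H.j2
  have a1 := H.dma.rl hq (i := i) (j := j) (a := r₁) (b := r) (s := 1) (s' := 1) (by omega)
    (by omega) (by omega) (by omega)
  have a2 : CH q (D.rgt i j r₁ r 1) (fun ω => (D.T ω, cb D J w i j r ω)) ≤
      CH q (D.rgt i j r₁ r 1) (fun ω => (D.c i j ω, D.T ω)) :=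
    CH_mono_cond hq fun ω ω' _ _ e => by
      have e1 := Prod.ext_iff.1 e
      have e2 := Prod.ext_iff.1 e1.2
      have e3 : D.c i j ω = D.c i j ω' := (Prod.ext_iff.1 e2.1).1
      exact Prod.ext e3 e1.1
  have a3 : CH q (D.rgt i j r₁ r 1) (fun ω => (D.lft i j r₁ r 1 ω, (D.c i j ω, D.T ω))) ≤
      CH q (D.rgt i j r₁ r 1) (fun ω => (D.lft i j r₁ r 1 ω, (D.T ω, cb D J w i j r ω))) :=
    CH_mono_cond hq fun ω ω' a b e => by
      have e1 := Prod.ext_iff.1 e
      have e2 := Prod.ext_iff.1 e1.2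
      have e4 : D.c (i + r₁) (j - r) ω = D.c (i + r₁) (j - r) ω' := lft_one e1.1
      have e6 : D.c (i - 1) (j - r) ω = D.c (i - 1) (j - r) ω' := by
        have := c_up H.ok (j := j - r) (by omega) (i - 1) (i + r₁ - (i - 1)) (by omega)
        rw [show i - 1 + (i + r₁ - (i - 1)) = i + r₁ by omega] at this
        exact this ω ω' a b e4
      refine Prod.ext e1.1 (Prod.ext e2.2 (Prod.ext (Prod.ext e2.1 e6) ?_))
      show D.T ω / 2 ^ (J - w) = D.T ω' / 2 ^ (J - w)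
      have : D.T ω = D.T ω' := e2.2
      rw [this]
  linarith

/-- The samples which agree on the right side. -/
theorem Hyp.rgt_cls {r₁ : ℕ} {ω ω' : D.Ω} (p : 0 < q ω) (p' : 0 < q ω')
    (e : (D.rgt i j r₁ r 1 ω, (D.T ω, cb D J w i j r ω)) =
      (D.rgt i j r₁ r 1 ω', (D.T ω', cb D J w i j r ω'))) :
    bb D i j r ω = bb D i j r ω' ∧ D.T ω = D.T ω' ∧
      D.s (i - r₁) (j + r) ω = D.s (i - r₁) (j + r) ω' := by
  have e1 := Prod.ext_iff.1 e
  have e2 := Prod.ext_iff.1 e1.2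
  have e3 := Prod.ext_iff.1 e2.2
  refine ⟨e3.1, e2.1, ?_⟩
  have e4 := congrFun e1.1 (1 : Fin 2)
  have e5 : D.c (i - ((1 : Fin 2) : ℕ) * r₁) (j + ((1 : Fin 2) : ℕ) * r) ω =
    D.c (i - ((1 : Fin 2) : ℕ) * r₁) (j + ((1 : Fin 2) : ℕ) * r) ω' := e4
  have e6 : D.c (i - r₁) (j + r) ω = D.c (i - r₁) (j + r) ω' := by simpa using e5
  have h4 := H.j2
  have h5 := H.i2
  exact H.ok.s_c (i - r₁) (by omega) (j + r) (by omega) ω ω' p p' (Prod.ext e6 e2.1)

theorem Hyp.few_X {T ι : Type} [Fintype ι] (V : D.Ω → ι → ℤ) (Y : D.Ω → T) {m b : ℝ}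
    (ha : 0 ≤ m) (hb : 0 < b)
    (h1 : ∀ ω ω', 0 < q ω → 0 < q ω' → E ω → E ω' → Y ω = Y ω' →
      ∀ s, |((V ω s - V ω' s : ℤ) : ℝ)| ≤ m)
    (h2 : ∀ ω, 0 < q ω → ∀ s, |((V ω s : ℤ) : ℝ)| ≤ b * 2 ^ X) :
    CH q V Y ≤ fb (Fintype.card ι) m b X (Pb q fun ω => ¬ E ω) := by
  have h := few_idx H.ok.isLaw V Y E ha (by positivity) h1 h2
  refine h.trans ?_
  unfold fb
  have h3 := log_le X hb
  have h4 := Pb_nonneg H.ok.isLaw.nonneg (fun ω => ¬ E ω)
  have h5 := mul_le_mul_of_nonneg_left h3 h4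
  have h6 : (Fintype.card ι : ℝ) * (Real.log (2 * m + 1) + Pb q (fun ω => ¬ E ω) *
      Real.log (4 * (b * 2 ^ X) + 1)) ≤ Fintype.card ι * (Real.log (2 * m + 1) +
      Pb q (fun ω => ¬ E ω) * (Real.log (4 * b + 1) + X)) :=
    mul_le_mul_of_nonneg_left (by linarith) (Nat.cast_nonneg _)
  linarith

/-- A vector of digits, given one side. -/
theorem Hyp.dgv_few {T ι : Type} [Fintype ι] (f : D.Ω → ι → ℝ) {R : ℝ} (hR : 1 ≤ R)
    (Y : D.Ω → T)
    (hY : ∀ ω ω', 0 < q ω → 0 < q ω' → E ω → E ω' → Y ω = Y ω' → ∀ s,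
      |f ω s - f ω' s| ≤ exp (C * z) / 2 ^ (y * z)) :
    CH q (fun ω s => dg X (f ω s / R)) Y ≤
      (1 + 7 * (Fintype.card ι : ℝ)) * (1 + X * Pb q fun ω => ¬ E ω) := by
  have hl := H.ok.isLaw
  have h := H.few_X (fun ω s => dg X (f ω s / R)) Y (m := 3) (b := 1) (by norm_num) one_pos
    (by
      intro ω ω' p p' hE hE' e s
      have h1 := hY ω ω' p p' hE hE' e s
      have h2 : (2 : ℝ) ^ X * |f ω s / R - f ω' s / R| ≤ 1 :=
        quo_sub (by positivity) hR h1 H.tau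
      have h3 := dg_sub h2
      linarith)
    (by
      intro ω _ s
      rw [one_mul]
      exact dg_abs X _)
  exact h.trans (fb1_le _ X H.b0 (Pb_le_one hl _))

/-- The slow coordinates given the left side. -/
theorem Hyp.yv_few {T : Type} (Y : D.Ω → T)
    (hY : ∀ ω ω', 0 < q ω → 0 < q ω' → E ω → E ω' → Y ω = Y ω' → ∀ l, sl th gam n l →
      |z0 D J w i j r P ω l - z0 D J w i j r P ω' l| ≤ exp (C * z) / 2 ^ (y * z)) :
    CH q (yv D J w z i j r X C P ys) Y ≤
      (1 + 7 * ((k0 + k1 : ℕ) : ℝ)) * (1 + X * Pb q fun ω => ¬ E ω) := by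
  have hl := H.ok.isLaw
  have h := H.few_X (yv D J w z i j r X C P ys) Y (m := 3) (b := 1) (by norm_num) one_pos
    (by
      intro ω ω' p p' hE hE' e s
      have h1 := hY ω ω' p p' hE hE' e _ (H.ys_sl s)
      have hR := H.one_Ry
      have hQ : (0 : ℝ) ≤ 2 ^ X := by positivity
      have h2 : (2 : ℝ) ^ X * |(z0 D J w i j r P ω (ys s) + Ry z C) / (2 * Ry z C) -
          (z0 D J w i j r P ω' (ys s) + Ry z C) / (2 * Ry z C)| ≤ 1 := by
        refine quo_sub (τ := exp (C * z) / 2 ^ (y * z)) hQ (by linarith) ?_ H.tau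
        rw [add_sub_add_right_eq_sub]
        exact h1
      have h3 := dgp_sub h2
      unfold yv
      linarith)
    (by
      intro ω _ s
      unfold yv
      rw [one_mul]
      exact dgp_abs X _)
  rw [Fintype.card_fin] at h
  exact h.trans (fb1_le _ X H.b0 (Pb_le_one hl _))

/-- The own slopes given the right side. -/
theorem Hyp.Sv_few {T : Type} (Y : D.Ω → T)
    (hY : ∀ ω ω', 0 < q ω → 0 < q ω' → E ω → E ω' → Y ω = Y ω' → ∀ u, gr th gam n u → ∀ l,
      sl th gam n l → |S.S ω u l - S.S ω' u l| ≤ exp (C * z) / 2 ^ (y * z)) :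
    CH q (Sv D z X C S ys gs) Y ≤
      (1 + 7 * (c * (k0 + k1) : ℝ)) * (1 + X * Pb q fun ω => ¬ E ω) := by
  have hq := H.ok.isLaw.nonneg
  have hR := H.one_Ry
  have hR0 : 0 < Ry z C := by linarith
  have h := H.dgv_few (ι := Fin c × Fin (k0 + k1)) (fun ω s => S.S ω (gs s.1) (ys s.2))
    (R := Ry z C) hR Y fun ω ω' p p' hE hE' e s =>
      hY ω ω' p p' hE hE' e _ (H.gs_gr s.1) _ (H.ys_sl s.2)
  rw [Fintype.card_prod, Fintype.card_fin, Fintype.card_fin] at h
  push_cast at h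
  refine le_trans (CH_mono_left hq ?_) h
  intro ω ω' _ _ hh
  have h1 := (Prod.ext_iff.1 hh).1
  have e1 : ∀ x : ℝ, x * (2 * Ry z C) / Rg z C = x / Ry z C := by
    intro x
    have h2 : Rg z C = 2 * Ry z C * Ry z C := by
      rw [Rg_eq]
      unfold Ry
      ring
    rw [h2]
    field_simp
  funext u b
  have h2 := congrFun h1 (u, b)
  unfold Sv
  rw [e1, e1]
  exact h2

/-- **The data of the line, given the left side.** -/
theorem Hyp.lv_few :
    CH q (lv (c := c) (k0 := k0) (k1 := k1) D J w z i j r d X C P ys gs)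
      (fun ω => (D.lft i j r'' r 1 ω, (D.T ω, cb D J w i j r ω))) ≤
      (4 + 7 * ((c : ℝ) + (k0 + k1) + k1 * d + c * d)) * (1 + X * Pb q fun ω => ¬ E ω) := by
  have hl := H.ok.isLaw
  have hq := hl.nonneg
  have hRy := H.one_Ry
  have key : ∀ ω ω', 0 < q ω → 0 < q ω' → E ω → E ω' →
      (D.lft i j r'' r 1 ω, (D.T ω, cb D J w i j r ω)) =
        (D.lft i j r'' r 1 ω', (D.T ω', cb D J w i j r ω')) → ∀ l, 1 ≤ l → l ≤ n →
      |z0 D J w i j r P ω l - z0 D J w i j r P ω' l| ≤ exp (C * z) / 2 ^ (y * z) ∧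
      ∀ s, 1 ≤ s → s ≤ d → |bs D J w i j r d P s ω l - bs D J w i j r d P s ω' l| ≤
        exp (C * z) / 2 ^ (y * z) := by
    intro ω ω' p p' hE hE' e l l1 l2
    obtain ⟨e1, e2, e3⟩ := lft_cls e
    exact H.geo.left3 ω ω' p p' hE hE' e1 e2 w H.w1 H.w2 e3 l l1 l2
  have bn := H.dgv_few (fun ω (u : Fin c) => z0 D J w i j r P ω (gs u)) H.one_Rg
    (fun ω => (D.lft i j r'' r 1 ω, (D.T ω, cb D J w i j r ω)))
    fun ω ω' p p' hE hE' e s => (key ω ω' p p' hE hE' e _ (H.gs_n s).1 (H.gs_n s).2).1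
  have bb' := H.dgv_few (fun ω (s : Fin c × Fin d) => bs D J w i j r d P (s.2 + 1) ω (gs s.1))
    H.one_Rg (fun ω => (D.lft i j r'' r 1 ω, (D.T ω, cb D J w i j r ω)))
    fun ω ω' p p' hE hE' e s => (key ω ω' p p' hE hE' e _ (H.gs_n s.1).1 (H.gs_n s.1).2).2 _
      (by omega) (by have := s.2.2; omega)
  have bm := H.dgv_few (fun ω (s : Fin k1 × Fin d) =>
      bs D J w i j r d P (s.2 + 1) ω (ys (Fin.natAdd k0 s.1))) (R := 2 * Ry z C) (by linarith)
    (fun ω => (D.lft i j r'' r 1 ω, (D.T ω, cb D J w i j r ω)))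
    fun ω ω' p p' hE hE' e s => (key ω ω' p p' hE hE' e _ (H.ys_n _).1 (H.ys_n _).2).2 _
      (by omega) (by have := s.2.2; omega)
  have by' := H.yv_few (fun ω => (D.lft i j r'' r 1 ω, (D.T ω, cb D J w i j r ω)))
    fun ω ω' p p' hE hE' e l hl' => (key ω ω' p p' hE hE' e l hl'.1 hl'.2.1.le).1
  rw [Fintype.card_fin] at bn
  rw [Fintype.card_prod, Fintype.card_fin, Fintype.card_fin] at bb' bm
  have c1 : CH q (lv (c := c) (k0 := k0) (k1 := k1) D J w z i j r d X C P ys gs)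
      (fun ω => (D.lft i j r'' r 1 ω, (D.T ω, cb D J w i j r ω))) ≤
      CH q (fun ω => ((fun u : Fin c => dg X (z0 D J w i j r P ω (gs u) / Rg z C)),
        (yv D J w z i j r X C P ys ω,
        ((fun s : Fin k1 × Fin d => dg X (bs D J w i j r d P (s.2 + 1) ω
          (ys (Fin.natAdd k0 s.1)) / (2 * Ry z C))),
        (fun s : Fin c × Fin d => dg X (bs D J w i j r d P (s.2 + 1) ω (gs s.1) / Rg z C))))))
        (fun ω => (D.lft i j r'' r 1 ω, (D.T ω, cb D J w i j r ω))) := by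
    refine CH_mono_left hq ?_
    intro ω ω' _ _ e
    simp only [Prod.mk.injEq] at e
    obtain ⟨⟨e1, e2, e3, e3'⟩, e4, e5, e6⟩ := e
    have f1 : nuv (c := c) D J w z i j r X C P gs ω = nuv D J w z i j r X C P gs ω' := e1
    have f2 : mv (k0 := k0) (k1 := k1) D J w z i j r d X C P ys ω =
        mv D J w z i j r d X C P ys ω' := by
      funext l s
      exact congrFun e3 (l, s)
    have f3 : bev (c := c) D J w z i j r d X C P gs ω = bev D J w z i j r d X C P gs ω' := by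
      funext u s
      exact congrFun e3' (u, s)
    exact Prod.ext f1 (Prod.ext e6 (Prod.ext e2 (Prod.ext f2 f3)))
  have c2 := (CH_subadd hq (fun ω => (fun u : Fin c => dg X (z0 D J w i j r P ω (gs u) / Rg z C)))
    (fun ω => (yv D J w z i j r X C P ys ω,
        ((fun s : Fin k1 × Fin d => dg X (bs D J w i j r d P (s.2 + 1) ω
          (ys (Fin.natAdd k0 s.1)) / (2 * Ry z C))),
        (fun s : Fin c × Fin d => dg X (bs D J w i j r d P (s.2 + 1) ω (gs s.1) / Rg z C)))))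
    (fun ω => (D.lft i j r'' r 1 ω, (D.T ω, cb D J w i j r ω))))
  have c3 := (CH_subadd hq (yv D J w z i j r X C P ys)
    (fun ω => ((fun s : Fin k1 × Fin d => dg X (bs D J w i j r d P (s.2 + 1) ω
          (ys (Fin.natAdd k0 s.1)) / (2 * Ry z C))),
        (fun s : Fin c × Fin d => dg X (bs D J w i j r d P (s.2 + 1) ω (gs s.1) / Rg z C))))
    (fun ω => (D.lft i j r'' r 1 ω, (D.T ω, cb D J w i j r ω))))
  have c4 := (CH_subadd hq
    (fun ω => (fun s : Fin k1 × Fin d => dg X (bs D J w i j r d P (s.2 + 1) ω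
          (ys (Fin.natAdd k0 s.1)) / (2 * Ry z C))))
    (fun ω => (fun s : Fin c × Fin d => dg X (bs D J w i j r d P (s.2 + 1) ω (gs s.1) / Rg z C)))
    (fun ω => (D.lft i j r'' r 1 ω, (D.T ω, cb D J w i j r ω))))
  push_cast at bn bb' bm by'
  have c5 : (4 + 7 * ((c : ℝ) + (k0 + k1) + k1 * d + c * d)) *
      (1 + X * Pb q fun ω => ¬ E ω) =
      (1 + 7 * (c : ℝ)) * (1 + X * Pb q fun ω => ¬ E ω) +
      ((1 + 7 * ((k0 : ℝ) + k1)) * (1 + X * Pb q fun ω => ¬ E ω) +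
      ((1 + 7 * ((k1 : ℝ) * d)) * (1 + X * Pb q fun ω => ¬ E ω) +
      (1 + 7 * ((c : ℝ) * d)) * (1 + X * Pb q fun ω => ¬ E ω))) := by ring
  rw [c5]
  linarith

/-- **The abstract time is almost independent** of everything which is a function of the line and
of the window and is few given the left side. -/
theorem Hyp.h0_gen {T : Type} {Y : D.Ω → T} (hY : Det q (D.wn J w) Y) {e : ℝ}
    (he : CH q Y (fun ω => (D.lft i j r'' r 1 ω, (D.T ω, cb D J w i j r ω))) ≤ e) :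
    CH q (tv (c := c) (k0 := k0) (k1 := k1) D J w z i j r X C S ys gs) (cb D J w i j r) ≤
      CH q (tv (c := c) (k0 := k0) (k1 := k1) D J w z i j r X C S ys gs)
        (fun ω => (Y ω, cb D J w i j r ω)) +
        (2 * (κ * z) + e +
          (1 + 7 * (c * (k0 + k1) : ℝ)) * (1 + X * Pb q fun ω => ¬ E ω)) := by
  have hl := H.ok.isLaw
  have hq := hl.nonneg
  have hi1 := H.i1
  have hi2 := H.i2
  have hj2 := H.j2
  have hw := H.w1
  have hwX := H.wX
  have d1 := ir_time H.ok H.tmu (w := w) (by omega) (by omega) (R := cb D J w i j r)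
    (b := fun ω => (Y ω, cb D J w i j r ω)) (fun ω ω' _ _ e => (Prod.ext_iff.1 e).2)
    (fun ω ω' p p' e => Prod.ext (hY ω ω' p p' e)
      (bb_det H.ok (i := i) (j := j) (r := r) (by omega) (by omega) hw (by omega) ω ω' p p' e))
  have a1 := H.mi_cb (r₁ := r'') H.i1 H.i2
  have b5 := H.Sv_few (fun ω => (D.rgt i j r'' r 1 ω, (D.T ω, cb D J w i j r ω)))
    fun ω ω' p p' hE hE' e u hu l hl' => by
      obtain ⟨e1, e2, e3⟩ := H.rgt_cls p p' e
      exact (H.geo.right2 ω ω' p p' hE hE' e1 e2 e3).1 u hu l hl'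
  have b6 := use_gen hq a1 he b5
  have k1' : CH q (tv (c := c) (k0 := k0) (k1 := k1) D J w z i j r X C S ys gs)
      (cb D J w i j r) ≤ CH q D.T (cb D J w i j r) +
      CH q (Sv D z X C S ys gs) (fun ω => (D.T ω, cb D J w i j r ω)) := by
    have f1 : CH q (tv (c := c) (k0 := k0) (k1 := k1) D J w z i j r X C S ys gs)
        (cb D J w i j r) ≤
        CH q (fun ω => (Sv D z X C S ys gs ω, D.T ω)) (cb D J w i j r) := by
      refine CH_mono_left hq ?_
      intro ω ω' _ _ e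
      simp only [Prod.mk.injEq] at e
      obtain ⟨⟨e1, e2⟩, e3⟩ := e
      unfold tv
      rw [e1, e2, e3]
    have f2 := CH_chain hq (Sv D z X C S ys gs) D.T (cb D J w i j r)
    linarith
  have k2' : CH q D.T (fun ω => (Y ω, cb D J w i j r ω)) + CH q (Sv D z X C S ys gs)
      (fun ω => (Y ω, (D.T ω, cb D J w i j r ω))) ≤
      CH q (tv (c := c) (k0 := k0) (k1 := k1) D J w z i j r X C S ys gs)
        (fun ω => (Y ω, cb D J w i j r ω)) := by
    have f1 : CH q (fun ω => (Sv D z X C S ys gs ω, D.T ω)) (fun ω => (Y ω, cb D J w i j r ω)) ≤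
        CH q (tv (c := c) (k0 := k0) (k1 := k1) D J w z i j r X C S ys gs)
          (fun ω => (Y ω, cb D J w i j r ω)) := by
      refine CH_mono_left hq ?_
      intro ω ω' _ _ e
      have e1 : tv (c := c) (k0 := k0) (k1 := k1) D J w z i j r X C S ys gs ω =
        tv D J w z i j r X C S ys gs ω' := (Prod.ext_iff.1 e).1
      unfold tv at e1
      simp only [Prod.mk.injEq] at e1
      obtain ⟨-, e2, e3⟩ := e1
      show (Sv D z X C S ys gs ω, D.T ω) = (Sv D z X C S ys gs ω', D.T ω')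
      rw [e2, e3]
    have f2 := CH_chain hq (Sv D z X C S ys gs) D.T (fun ω => (Y ω, cb D J w i j r ω))
    have f3 : CH q (Sv D z X C S ys gs)
        (fun ω => (Y ω, (D.T ω, cb D J w i j r ω))) ≤
        CH q (Sv D z X C S ys gs) (fun ω => (D.T ω, (Y ω, cb D J w i j r ω))) :=
      CH_mono_cond hq fun ω ω' _ _ e => by
        simp only [Prod.mk.injEq] at e ⊢
        exact ⟨e.2.1, e.1, e.2.2⟩
    linarith
  linarith

/-- The contexts on a diagonal. -/
theorem Hyp.ij_iter {i' j' : ℕ} (s : ℕ) (h1 : i' + s ≤ M) (h2 : j' + s ≤ M) :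
    CH q (D.c (i' + s) (j' + s)) (D.c i' j') ≤ s * (C₁ * z) := by
  have hq := H.ok.isLaw.nonneg
  induction s with
  | zero =>
    rw [Nat.cast_zero, zero_mul]
    exact (CH_eq_zero hq fun _ _ _ _ e => e).le
  | succ s ih =>
    have h3 := ih (by omega) (by omega)
    have h4 := CH_le_add hq (D.c (i' + (s + 1)) (j' + (s + 1))) (D.c (i' + s) (j' + s)) (D.c i' j')
    have h5 : CH q (D.c (i' + (s + 1)) (j' + (s + 1)))
        (fun ω => (D.c (i' + s) (j' + s) ω, D.c i' j' ω)) ≤ C₁ * z :=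
      (CH_mono_cond hq fun ω ω' _ _ e => (Prod.ext_iff.1 e).1).trans
        (H.ok.ij_few (i' + s) (by omega) (j' + s) (by omega))
    push_cast
    linarith

/-- **The closed contexts `(i', j)`, `i' ≤ i + r'' + r`, given the left side.** -/
theorem Hyp.ctx_few {i' : ℕ} (hi' : i' ≤ i + r'' + r) (hM : i + r'' + r ≤ M) :
    CH q (D.c i' j) (fun ω => (D.lft i j r'' r 1 ω, (D.T ω, cb D J w i j r ω))) ≤
      r * (C₁ * z) := by
  have hq := H.ok.isLaw.nonneg
  have h1 := H.j1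
  have h2 := H.j2
  have h3 := H.ij_iter (i' := i + r'') (j' := j - r) r hM (by omega)
  rw [Nat.sub_add_cancel h1] at h3
  have h4 : CH q (D.c i' j) (fun ω => (D.lft i j r'' r 1 ω, (D.T ω, cb D J w i j r ω))) ≤
      CH q (D.c (i + r'' + r) j)
        (fun ω => (D.lft i j r'' r 1 ω, (D.T ω, cb D J w i j r ω))) := by
    refine CH_mono_left hq ?_
    intro ω ω' p p' e
    have h5 := c_up H.ok (j := j) (by omega) i' (i + r'' + r - i') (by omega)
    rw [show i' + (i + r'' + r - i') = i + r'' + r by omega] at h5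
    exact h5 ω ω' p p' (Prod.ext_iff.1 e).1
  refine h4.trans (le_trans (CH_mono_cond hq fun ω ω' _ _ e => ?_) h3)
  exact lft_one (Prod.ext_iff.1 e).1

/-- **The abstract time is almost independent** of the data of the line together with a closed
context `(i', j)`, `i' ≤ i + r'' + r`. -/
theorem Hyp.h0_ctx {i' : ℕ} (hi' : i' ≤ i + r'' + r) (hM : i + r'' + r ≤ M) :
    CH q (tv (c := c) (k0 := k0) (k1 := k1) D J w z i j r X C S ys gs) (cb D J w i j r) ≤
      CH q (tv (c := c) (k0 := k0) (k1 := k1) D J w z i j r X C S ys gs)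
        (fun ω => ((lv (c := c) (k0 := k0) (k1 := k1) D J w z i j r d X C P ys gs ω,
          D.c i' j ω), cb D J w i j r ω)) +
        (2 * (κ * z) + (r * (C₁ * z) +
          (4 + 7 * ((c : ℝ) + (k0 + k1) + k1 * d + c * d)) * (1 + X * Pb q fun ω => ¬ E ω)) +
          (1 + 7 * (c * (k0 + k1) : ℝ)) * (1 + X * Pb q fun ω => ¬ E ω)) := by
  have hq := H.ok.isLaw.nonneg
  have hi2 := H.i2
  have hj2 := H.j2
  have hw := H.w1
  have hwX := H.wX
  refine H.h0_gen (fun ω ω' p p' e => Prod.ext ?_ ?_) ?_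
  · exact det_lv H.ok (by omega) (by omega) hw (by omega) ω ω' p p' e
  · refine H.ok.c_wn i' (by omega) j (by omega) ω ω' p p' (Prod.ext (Prod.ext_iff.1 e).1 ?_)
    show D.T ω / 2 ^ (J - (w₀ + j * z)) = D.T ω' / 2 ^ (J - (w₀ + j * z))
    have e2 : D.T ω / 2 ^ (J - w) = D.T ω' / 2 ^ (J - w) := (Prod.ext_iff.1 e).2
    rw [Pool.TMU.win_div (D.T ω) hw (by omega), Pool.TMU.win_div (D.T ω') hw (by omega), e2]
  · have h1 := CH_subadd hq (lv (c := c) (k0 := k0) (k1 := k1) D J w z i j r d X C P ys gs)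
      (D.c i' j) (fun ω => (D.lft i j r'' r 1 ω, (D.T ω, cb D J w i j r ω)))
    have h2 := H.lv_few
    have h3 := H.ctx_few hi' hM
    linarith

end hyp

/-- The errors of the pieces. -/
theorem err_h0 {κ A B t e : ℝ} {z X : ℕ} (hz : 1 ≤ z) (hκ : 0 ≤ κ) (ht : 0 ≤ t) (hB : 0 ≤ B)
    (hA : 2 + B ≤ A) (he : e ≤ 2 * (κ * z) + B * (1 + X * t)) : e ≤ err A κ z X t := by
  have hzr : (1 : ℝ) ≤ z := by exact_mod_cast hz
  have hκz : 0 ≤ κ * z := by positivity
  have hXt : 0 ≤ (X : ℝ) * t := mul_nonneg (Nat.cast_nonneg X) ht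
  refine he.trans ?_
  unfold err
  have e1 : B * (1 + X * t) ≤ B * z + B * (X * t) := by
    have := mul_le_mul_of_nonneg_left hzr hB
    linarith
  have e2 : (2 + B) * ((1 + κ) * z + X * t) ≤ A * ((1 + κ) * z + X * t) :=
    mul_le_mul_of_nonneg_right hA (by nlinarith)
  have e3 : (2 + B) * ((1 + κ) * z + X * t) = (2 + B) * z + (2 + B) * (κ * z) +
      (2 + B) * (X * t) := by ring
  have e4 : 0 ≤ B * (κ * z) := mul_nonneg hB hκz
  have e5 : (2 + B) * z = 2 * z + B * z := by ring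
  have e6 : (2 + B) * (κ * z) = 2 * (κ * z) + B * (κ * z) := by ring
  have e7 : (2 + B) * (X * t) = 2 * (X * t) + B * (X * t) := by ring
  linarith

/-- **(H0).** -/
theorem h0_stmt : H0Stmt := by
  intro n d K K' c k0 k1 C₁ C
  obtain ⟨B, hB⟩ : ∃ B : ℝ, B = (4 + 7 * ((c : ℝ) + (k0 + k1) + k1 * d + c * d)) +
    (1 + 7 * (c * (k0 + k1) : ℝ)) := ⟨_, rfl⟩
  have hB0 : 0 ≤ B := by rw [hB]; positivity
  refine ⟨2 + B, by linarith, ?_⟩
  intro D J a₀ w₀ z M w i j r r2 r' r'' y a X th lam gam κ q E P S ys gs H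
  have hq := H.ok.isLaw.nonneg
  have hi2 := H.i2
  have hj2 := H.j2
  have hw := H.w1
  have hwX := H.wX
  have h1 := H.h0_gen (det_lv (d := d) (X := X) (C := C) (P := P) (ys := ys) (gs := gs) H.ok
    (i := i) (r := r) (by omega) (by omega) hw (by omega)) H.lv_few
  have h2 : CH q (tv (c := c) (k0 := k0) (k1 := k1) D J w z i j r X C S ys gs)
      (fun ω => (lv (c := c) (k0 := k0) (k1 := k1) D J w z i j r d X C P ys gs ω,
        cb D J w i j r ω)) ≤ CH q (tv (c := c) (k0 := k0) (k1 := k1) D J w z i j r X C S ys gs)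
      (lv (c := c) (k0 := k0) (k1 := k1) D J w z i j r d X C P ys gs) :=
    CH_mono_cond hq fun ω ω' _ _ e => (Prod.ext_iff.1 e).1
  have h3 := err_h0 (A := 2 + B) (X := X) H.z1 H.κ0 H.b0 hB0 le_rfl (e := 2 * (κ * z) +
    (4 + 7 * ((c : ℝ) + (k0 + k1) + k1 * d + c * d)) * (1 + X * Pb q fun ω => ¬ E ω) +
    (1 + 7 * (c * (k0 + k1) : ℝ)) * (1 + X * Pb q fun ω => ¬ E ω)) (le_of_eq (by
      rw [hB]
      ring))
  linarith

/-- **(H0) with a deeper closed context**: the abstract time is almost independent of every record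
`R` which is a function of the data of the line, of a closed context `(i', j)` with
`i' ≤ i + r'' + r`, and of the picture context. -/
theorem h0_rec (n d K K' c k0 k1 : ℕ) (C₁ C : ℝ) : ∃ A : ℝ, 0 ≤ A ∧
    ∀ (D : NDat2) (J a₀ w₀ z M w i j r r2 r' r'' y a X : ℕ) (th : ℝ) (lam gam : ℕ → ℝ) (κ : ℝ)
      (q : D.Ω → ℝ) (E : D.Ω → Prop) (P : D.Γ × D.Γ → ℕ → PN) (S : Slo D)
      (ys : Fin (k0 + k1) → ℕ) (gs : Fin c → ℕ),
      Hyp D n d K K' J a₀ w₀ z M w i j r r2 r' r'' y a X th lam gam κ C₁ C q E P S ys gs →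
      ∀ i', i' ≤ i + r'' + r → i + r'' + r ≤ M → ∀ (T : Type) (R : D.Ω → T),
        Det q (fun ω => ((lv (c := c) (k0 := k0) (k1 := k1) D J w z i j r d X C P ys gs ω,
          D.c i' j ω), cb D J w i j r ω)) R →
        CH q (tv (c := c) (k0 := k0) (k1 := k1) D J w z i j r X C S ys gs) (cb D J w i j r) ≤
          CH q (tv (c := c) (k0 := k0) (k1 := k1) D J w z i j r X C S ys gs)
            (fun ω => (R ω, cb D J w i j r ω)) +
          (err A κ z X (Pb q fun ω => ¬ E ω) + r * (C₁ * z)) := by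
  obtain ⟨B, hB⟩ : ∃ B : ℝ, B = (4 + 7 * ((c : ℝ) + (k0 + k1) + k1 * d + c * d)) +
    (1 + 7 * (c * (k0 + k1) : ℝ)) := ⟨_, rfl⟩
  have hB0 : 0 ≤ B := by rw [hB]; positivity
  refine ⟨2 + B, by linarith, ?_⟩
  intro D J a₀ w₀ z M w i j r r2 r' r'' y a X th lam gam κ q E P S ys gs H i' hi' hM T R hR
  have hq := H.ok.isLaw.nonneg
  have h1 := H.h0_ctx hi' hM
  have h2 : CH q (tv (c := c) (k0 := k0) (k1 := k1) D J w z i j r X C S ys gs)
      (fun ω => ((lv (c := c) (k0 := k0) (k1 := k1) D J w z i j r d X C P ys gs ω,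
          D.c i' j ω), cb D J w i j r ω)) ≤
      CH q (tv (c := c) (k0 := k0) (k1 := k1) D J w z i j r X C S ys gs)
        (fun ω => (R ω, cb D J w i j r ω)) :=
    CH_mono_cond hq fun ω ω' p p' e => Prod.ext (hR ω ω' p p' e) (Prod.ext_iff.1 e).2
  have h3 := err_h0 (A := 2 + B) (X := X) H.z1 H.κ0 H.b0 hB0 le_rfl (e := 2 * (κ * z) +
    (4 + 7 * ((c : ℝ) + (k0 + k1) + k1 * d + c * d)) * (1 + X * Pb q fun ω => ¬ E ω) +
    (1 + 7 * (c * (k0 + k1) : ℝ)) * (1 + X * Pb q fun ω => ¬ E ω)) (le_of_eq (by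
      rw [hB]
      ring))
  linarith

end Pool.TC
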